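import Pool.Agent.helper55.VQ.SpecD

/-!
# Project VQ (MP_07c750_an), block 2d, row EDG: neighbours stay close for the time `τ`
-/

set_option autoImplicit false

open scoped MatrixGroups ContDiff Topology UpperHalfPlane ComplexConjugate ENNReal
open UpperHalfPlane MeasureTheory Filter Set

namespace Pool.Agent.VQ

open Pool.Agent.RS
open Pool.Agent.RPQ (CEig mean VV IsOp)

theorem EDG_dist (g h : SL(2, ℝ)) : dist (g • I : ℍ) (h • I) = dist ((g⁻¹ * h) • I : ℍ) I := by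
  rw [dist_comm, ← dist_smul g⁻¹ (h • I : ℍ) (g • I), smul_smul, smul_smul, inv_mul_cancel, one_smul]

/-- energies in the window are at most `1/8` -/
theorem EDG_win {R : ℝ} (hR : (2 : ℝ) ^ 16 ≤ R) {p : SL(2, ℝ) × ℝ} (hp : p ∈ GW 2 R) : |p.2| ≤ 1 / 8 := by
  have h1 : p.2 ∈ Wi 2 R := hp.2
  have h0 : (0 : ℝ) < 2 ^ 16 := by positivity
  have h2 : R ^ (-(1 / 4) : ℝ) ≤ 1 / 16 := by
    calc R ^ (-(1 / 4) : ℝ) ≤ ((2 : ℝ) ^ 16) ^ (-(1 / 4) : ℝ) := Real.rpow_le_rpow_of_nonpos h0 hR (by norm_num)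
      _ = 1 / 16 := by
        rw [← Real.rpow_natCast, ← Real.rpow_mul (by norm_num)]
        norm_num
  rw [Wi, mem_Icc] at h1
  rw [abs_le]
  constructor <;> linarith [h1.1, h1.2]

theorem EDG_proof (hHFG : HFG_stmt) (hVBO : VBO_stmt) : EDG_stmt := by
  obtain ⟨C1, hC1, HF⟩ := hHFG
  obtain ⟨C2, hC2, -, -, HB, -⟩ := hVBO
  refine ⟨100 * C1, by linarith, fun B A hA => ⟨max (2 ^ 16) ((2 * C1 * C2) ^ 10), le_max_of_le_left (by norm_num), ?_⟩⟩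
  intro R δ t Γ D p q hR hD hδ hp hq hN ht0 ht
  have hR16 : (2 : ℝ) ^ 16 ≤ R := (le_max_left _ _).trans hR
  have hR1 : 1 ≤ R := le_trans (by norm_num) hR16
  have hRp : 0 < R := by linarith
  have hK0 : 0 < 2 * C1 * C2 := by positivity
  have hRK : 2 * C1 * C2 ≤ R ^ (1 / 10 : ℝ) := by
    have h1 : (2 * C1 * C2) ^ 10 ≤ R := (le_max_right _ _).trans hR
    calc 2 * C1 * C2 = ((2 * C1 * C2) ^ 10) ^ (1 / 10 : ℝ) := by
          rw [← Real.rpow_natCast, ← Real.rpow_mul hK0.le]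
          norm_num
      _ ≤ R ^ (1 / 10 : ℝ) := Real.rpow_le_rpow (by positivity) h1 (by norm_num)
  obtain ⟨hz0, -, hzz, -, hCz2, hCm, -⟩ := Adm_small hA (by linarith)
  have hz1 : 0 < A.z1 := by
    have := hA.z1
    nlinarith
  have hz2 : 0 < A.z2 := by linarith
  have hz2' : A.z2 ≤ 1 / 100 := by nlinarith
  have hm0 : 0 ≤ (A.m : ℝ) * A.e3 := mul_nonneg (Nat.cast_nonneg _) hA.e3.le
  have hm1 : C1 * ((A.m : ℝ) * A.e3) ≤ 1 / 100 := by
    rw [le_div_iff₀ (by linarith)] at hCm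
    nlinarith
  have hlog : 0 ≤ Real.log R := Real.log_nonneg hR1
  have hexp : Real.exp (C1 * |t|) ≤ R ^ (1 / 100 : ℝ) := by
    rw [Real.rpow_def_of_pos hRp]
    refine Real.exp_le_exp.2 ?_
    rw [abs_of_nonneg ht0]
    have h1 : t ≤ A.m * (A.e3 * Real.log R) := ht
    calc C1 * t ≤ C1 * (A.m * (A.e3 * Real.log R)) := mul_le_mul_of_nonneg_left h1 (by linarith)
      _ = (C1 * (A.m * A.e3)) * Real.log R := by ring
      _ ≤ 1 / 100 * Real.log R := mul_le_mul_of_nonneg_right hm1 hlog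
      _ = Real.log R * (1 / 100) := by ring
  have hr0 : 0 < A.r R := Real.rpow_pos_of_pos hRp _
  have hr1 : A.r R ≤ R ^ (-(49 / 100) : ℝ) := Real.rpow_le_rpow_of_exponent_le hR1 (by linarith)
  have hs : C1 * Real.exp (C1 * |t|) * A.r R ≤ C1 * R ^ (-(48 / 100) : ℝ) := by
    have h1 : Real.exp (C1 * |t|) * A.r R ≤ R ^ (1 / 100 : ℝ) * R ^ (-(49 / 100) : ℝ) := mul_le_mul hexp hr1 hr0.le (by positivity)
    rw [← Real.rpow_add hRp] at h1
    have h2 : (1 / 100 : ℝ) + -(49 / 100) = -(48 / 100) := by norm_num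
    rw [h2] at h1
    rw [mul_assoc]
    exact mul_le_mul_of_nonneg_left h1 (by linarith)
  have hs2 : C2 * (C1 * Real.exp (C1 * |t|) * A.r R) ≤ 1 / 2 * R ^ (-(38 / 100) : ℝ) := by
    have h1 : C2 * (C1 * Real.exp (C1 * |t|) * A.r R) ≤ C2 * (C1 * R ^ (-(48 / 100) : ℝ)) := mul_le_mul_of_nonneg_left hs (by linarith)
    have h2 : C2 * (C1 * R ^ (-(48 / 100) : ℝ)) = 1 / 2 * (2 * C1 * C2) * R ^ (-(48 / 100) : ℝ) := by ring
    have h3 : 1 / 2 * (2 * C1 * C2) * R ^ (-(48 / 100) : ℝ) ≤ 1 / 2 * R ^ (1 / 10 : ℝ) * R ^ (-(48 / 100) : ℝ) := by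
      refine mul_le_mul_of_nonneg_right ?_ (Real.rpow_nonneg hRp.le _)
      linarith
    have h4 : 1 / 2 * R ^ (1 / 10 : ℝ) * R ^ (-(48 / 100) : ℝ) = 1 / 2 * R ^ (-(38 / 100) : ℝ) := by
      rw [mul_assoc, ← Real.rpow_add hRp]
      norm_num
    linarith
  have hsp : 0 < C1 * Real.exp (C1 * |t|) * A.r R := by positivity
  have h38 : R ^ (-(38 / 100) : ℝ) ≤ R ^ (-(1 / 3) : ℝ) := Real.rpow_le_rpow_of_exponent_le hR1 (by norm_num)
  have h381 : R ^ (-(38 / 100) : ℝ) ≤ 1 := Real.rpow_le_one_of_one_le_of_nonpos hR1 (by norm_num)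
  have hs3 : C1 * Real.exp (C1 * |t|) * A.r R ≤ 1 / 2 := by nlinarith
  have h1 := HF Γ δ B D hD hδ t (A.r R) p q (EDG_win hR16 hp) (EDG_win hR16 hq) hr0 (by linarith) hN
  have h2 := HB _ _ hsp hs3 h1.1
  rw [EDG_dist]
  have h3 : (D.ph t p).1⁻¹ * (D.ph t q).1 = (D.fl p.2 t p.1)⁻¹ * D.fl q.2 t q.1 := rfl
  rw [h3] at h2
  have h5 : 0 < R ^ (-(38 / 100) : ℝ) := Real.rpow_pos_of_pos hRp _
  linarith

end Pool.Agent.VQ
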