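import Pool.Agent.helper55.VQ.SpecD

/-!
# Project VQ (MP_07c750_an), block 2d, row EDH: `Hop` of the eigenfunction
-/

set_option autoImplicit false

open scoped MatrixGroups ContDiff Topology UpperHalfPlane ComplexConjugate ENNReal
open UpperHalfPlane MeasureTheory Filter Set

namespace Pool.Agent.VQ

open Pool.Agent.RS
open Pool.Agent.RPQ (CEig mean VV IsOp)

theorem EDH_cont {E : Type} [NormedAddCommGroup E] [NormedSpace ℝ E] {φ : ℍ → E} (h : QU.CD 2 φ) : Continuous φ := by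
  have h1 : ContinuousOn (QU.onC φ) {w : ℂ | 0 < w.im} := ContDiffOn.continuousOn h
  have h2 : φ = fun z : ℍ => QU.onC φ (z : ℂ) := by
    funext z
    show φ z = φ (ofComplex (z : ℂ))
    rw [ofComplex_apply]
  rw [h2]
  exact h1.comp_continuous UpperHalfPlane.continuous_coe (fun z => z.im_pos)

theorem EDH_real {U f F' μ R : ℝ} (hU : 1 / 2 ≤ U) (hU2 : U ≤ 2) (hR1 : 1 ≤ R) (hR : 14 ≤ R ^ (1 / 10100 : ℝ)) (hf : |f| ≤ R ^ (-(99 / 100) : ℝ))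
    (hF : |F' - (Real.log U + f)| ≤ R ^ (-3 : ℝ)) (hμ0 : 0 < μ) (hμ : |Real.sqrt μ - R| ≤ R ^ (-(1 / 100) : ℝ)) :
    |(2 * R)⁻¹ * (μ * Real.exp F' - R ^ 2 * U) - R / 2 * (U * f)| ≤ R ^ (-(1 / 101) : ℝ) := by
  have hR0 : 0 < R := by linarith
  obtain ⟨b, hb⟩ : ∃ b : ℝ, b = R ^ (-(101 / 100) : ℝ) := ⟨_, rfl⟩
  have hb0 : 0 < b := by rw [hb]; exact Real.rpow_pos_of_pos hR0 _
  obtain ⟨a, ha⟩ : ∃ a : ℝ, a = R ^ (-(1 / 100) : ℝ) := ⟨_, rfl⟩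
  have ha0 : 0 < a := by rw [ha]; exact Real.rpow_pos_of_pos hR0 _
  have ha1 : a ≤ 1 := by rw [ha]; exact Real.rpow_le_one_of_one_le_of_nonpos hR1 (by norm_num)
  have hab : a = b * R := by
    rw [ha, hb]
    nth_rewrite 3 [← Real.rpow_one R]
    rw [← Real.rpow_add hR0]
    norm_num
  obtain ⟨s, hs⟩ : ∃ s : ℝ, s = Real.sqrt μ - R := ⟨_, rfl⟩
  rw [← hs, ← ha] at hμ
  have hμs : μ = (R + s) ^ 2 := by
    rw [hs]
    have := Real.sq_sqrt hμ0.le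
    nlinarith
  obtain ⟨e1, he1⟩ : ∃ e1 : ℝ, e1 = F' - (Real.log U + f) := ⟨_, rfl⟩
  rw [← he1] at hF
  obtain ⟨x, hx⟩ : ∃ x : ℝ, x = f + e1 := ⟨_, rfl⟩
  have hexpF : Real.exp F' = U * Real.exp x := by
    have h1 : F' = Real.log U + x := by rw [hx, he1]; ring
    rw [h1, Real.exp_add, Real.exp_log (by linarith)]
  obtain ⟨e2, he2⟩ : ∃ e2 : ℝ, e2 = (2 * R * s + s ^ 2) / R ^ 2 := ⟨_, rfl⟩
  have hμ2 : μ = R ^ 2 * (1 + e2) := by
    rw [hμs, he2]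
    field_simp
    ring
  have key : (2 * R)⁻¹ * (μ * Real.exp F' - R ^ 2 * U) - R / 2 * (U * f) = R / 2 * U * ((Real.exp x - 1 - x) + e1 + e2 * Real.exp x) := by
    rw [hexpF, hμ2]
    have h1 : f = x - e1 := by rw [hx]; ring
    rw [h1]
    field_simp
    ring
  rw [key]
  have he1b : |e1| ≤ b := hF.trans (by rw [hb]; exact Real.rpow_le_rpow_of_exponent_le hR1 (by norm_num))
  have he2b : |e2| ≤ 3 * b := by
    rw [he2, abs_div, abs_of_nonneg (by positivity : (0 : ℝ) ≤ R ^ 2), div_le_iff₀ (by positivity)]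
    have h1 : |2 * R * s + s ^ 2| ≤ 2 * R * |s| + |s| ^ 2 := by
      refine (abs_add_le _ _).trans ?_
      rw [abs_mul, abs_of_nonneg (by positivity : (0 : ℝ) ≤ 2 * R), abs_pow]
    have h2 : 2 * R * |s| + |s| ^ 2 ≤ 3 * R * a := by
      have h3 : |s| ^ 2 ≤ R * a := by nlinarith [abs_nonneg s]
      nlinarith
    calc |2 * R * s + s ^ 2| ≤ 3 * R * a := h1.trans h2
      _ = 3 * b * R ^ 2 := by rw [hab]; ring
  have hx1 : |x| ≤ 2 * R ^ (-(99 / 100) : ℝ) := by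
    rw [hx]
    refine (abs_add_le _ _).trans ?_
    have h1 : R ^ (-3 : ℝ) ≤ R ^ (-(99 / 100) : ℝ) := Real.rpow_le_rpow_of_exponent_le hR1 (by norm_num)
    linarith
  have hRbig : 2 * R ^ (-(99 / 100) : ℝ) ≤ 1 := by
    have h1 : R ^ (-(99 / 100) : ℝ) ≤ R ^ (-(1 / 10100) : ℝ) := Real.rpow_le_rpow_of_exponent_le hR1 (by norm_num)
    have h2 : R ^ (-(1 / 10100) : ℝ) = (R ^ (1 / 10100 : ℝ))⁻¹ := Real.rpow_neg hR0.le _
    have h3 : (R ^ (1 / 10100 : ℝ))⁻¹ ≤ (14 : ℝ)⁻¹ := inv_anti₀ (by norm_num) hR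
    rw [h2] at h1
    have h4 : (14 : ℝ)⁻¹ ≤ 1 / 2 := by norm_num
    linarith
  have hx2 : |x| ≤ 1 := hx1.trans hRbig
  have hxx : x ^ 2 ≤ 4 * b := by
    have h1 : x ^ 2 ≤ (2 * R ^ (-(99 / 100) : ℝ)) ^ 2 := by
      rw [← sq_abs x]
      exact pow_le_pow_left₀ (abs_nonneg _) hx1 2
    have h2 : (R ^ (-(99 / 100) : ℝ)) ^ 2 ≤ b := by
      rw [hb, ← Real.rpow_natCast, ← Real.rpow_mul hR0.le]
      exact Real.rpow_le_rpow_of_exponent_le hR1 (by norm_num)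
    calc x ^ 2 ≤ (2 * R ^ (-(99 / 100) : ℝ)) ^ 2 := h1
      _ = 4 * (R ^ (-(99 / 100) : ℝ)) ^ 2 := by ring
      _ ≤ 4 * b := by linarith
  have hexp1 : Real.exp x ≤ 3 := by
    calc Real.exp x ≤ Real.exp 1 := Real.exp_le_exp.2 (abs_le.1 hx2).2
      _ ≤ 3 := Real.exp_one_lt_three.le
  have hq := Real.abs_exp_sub_one_sub_id_le hx2
  have htot : |(Real.exp x - 1 - x) + e1 + e2 * Real.exp x| ≤ 14 * b := by
    have h1 : |e2 * Real.exp x| ≤ 3 * b * 3 := by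
      rw [abs_mul, abs_of_pos (Real.exp_pos x)]
      exact mul_le_mul he2b hexp1 (Real.exp_pos x).le (by linarith)
    have h2 := abs_add_le ((Real.exp x - 1 - x) + e1) (e2 * Real.exp x)
    have h3 := abs_add_le (Real.exp x - 1 - x) e1
    linarith
  rw [abs_mul, abs_of_nonneg (by positivity : (0 : ℝ) ≤ R / 2 * U)]
  have h5 : R / 2 * U ≤ R := by nlinarith
  calc R / 2 * U * |(Real.exp x - 1 - x) + e1 + e2 * Real.exp x| ≤ R * (14 * b) := mul_le_mul h5 htot (abs_nonneg _) hR0.le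
    _ = 14 * a := by rw [hab]; ring
    _ ≤ R ^ (1 / 10100 : ℝ) * a := mul_le_mul_of_nonneg_right hR ha0.le
    _ = R ^ (-(1 / 101) : ℝ) := by
      rw [ha, ← Real.rpow_add hR0]
      norm_num

theorem EDH_proof : EDH_stmt := by
  refine ⟨max 2 (14 ^ (10100 : ℝ)), le_max_left _ _, ?_⟩
  intro Γ F U R f F' μ φ hR hΓ hF hU hφ
  have hR2 : 2 ≤ R := (le_max_left _ _).trans hR
  have hR1 : 1 ≤ R := by linarith
  have hR0 : 0 < R := by linarith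
  have h14 : 14 ≤ R ^ (1 / 10100 : ℝ) := by
    have h1 : (14 : ℝ) ^ (10100 : ℝ) ≤ R := (le_max_right _ _).trans hR
    calc (14 : ℝ) = (14 ^ (10100 : ℝ)) ^ (1 / 10100 : ℝ) := by
          rw [← Real.rpow_mul (by norm_num), mul_one_div_cancel (by norm_num), Real.rpow_one]
      _ ≤ R ^ (1 / 10100 : ℝ) := Real.rpow_le_rpow (Real.rpow_nonneg (by norm_num) _) h1 (by norm_num)
  have hκ : R ^ (1 / 100 : ℝ) / R = R ^ (-(99 / 100) : ℝ) := by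
    rw [div_eq_mul_inv, ← Real.rpow_neg_one, ← Real.rpow_add hR0]
    norm_num
  have hfb : ∀ z, |f z| ≤ R ^ (-(99 / 100) : ℝ) := fun z => hκ ▸ hφ.sm.bd z
  have hcd := hφ.eig.1
  have hinv := hφ.eig.2.1
  have hlap := hφ.eig.2.2
  have hcont : Continuous φ := EDH_cont hcd
  obtain ⟨K, hK, hFK⟩ := hF.rel
  obtain ⟨b, hb⟩ : ∃ b : ℝ, ∀ z ∈ F, dist z I ≤ b := by
    obtain ⟨b, hb⟩ := hK.isBounded.subset_closedBall (I : ℍ)
    exact ⟨b, fun z hz => Metric.mem_closedBall.1 (hb (hFK hz))⟩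
  have hHop : ∀ z, Hop U R φ z = (((2 * R)⁻¹ * (μ * Real.exp (F' z) - R ^ 2 * U z) : ℝ) : ℂ) * φ z := by
    intro z
    show (((2 * R)⁻¹ : ℝ) : ℂ) * (QU.lap φ z - ((R ^ 2 * U z : ℝ) : ℂ) * φ z) = _
    rw [hlap z]
    push_cast
    ring
  have hreal : ∀ z, |(2 * R)⁻¹ * (μ * Real.exp (F' z) - R ^ 2 * U z) - R / 2 * (U z * f z)| ≤ R ^ (-(1 / 101) : ℝ) := fun z =>
    EDH_real (hU.bd z).1 (hU.bd z).2 hR1 h14 (hfb z) (hφ.near z) hφ.mu0 hφ.mu1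
  have hbd : ∀ z, ‖Hop U R φ z - ((R / 2 * (U z * f z) : ℝ) : ℂ) * φ z‖ ≤ R ^ (-(1 / 101) : ℝ) * ‖φ z‖ := by
    intro z
    rw [hHop, ← sub_mul, ← Complex.ofReal_sub, norm_mul, Complex.norm_real, Real.norm_eq_abs]
    exact mul_le_mul_of_nonneg_right (hreal z) (norm_nonneg _)
  refine ⟨⟨hcont, hinv, b, fun z hz _ => hb z hz⟩, hcd, ⟨?_, ?_, b, fun z hz _ => hb z hz⟩, hbd, ?_⟩
  · have h1 : Hop U R φ = fun z => (((2 * R)⁻¹ * (μ * Real.exp (F' z) - R ^ 2 * U z) : ℝ) : ℂ) * φ z := funext hHop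
    rw [h1]
    have h2 : Continuous F' := hφ.inv.1
    have h3 : Continuous U := hU.inv.1
    exact (Complex.continuous_ofReal.comp (continuous_const.mul ((continuous_const.mul (Real.continuous_exp.comp h2)).sub (continuous_const.mul h3)))).mul hcont
  · intro γ z
    rw [hHop, hHop, hφ.inv.2, hU.inv.2, hinv]
  · intro z
    have h1 := hbd z
    have h2 : ‖((R / 2 * (U z * f z) : ℝ) : ℂ) * φ z‖ ≤ R ^ (1 / 100 : ℝ) * ‖φ z‖ := by
      rw [norm_mul, Complex.norm_real, Real.norm_eq_abs]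
      refine mul_le_mul_of_nonneg_right ?_ (norm_nonneg _)
      rw [abs_mul, abs_mul, abs_of_nonneg (by positivity : (0 : ℝ) ≤ R / 2), abs_of_nonneg (by linarith [(hU.bd z).1] : (0 : ℝ) ≤ U z)]
      have h3 : U z * |f z| ≤ 2 * R ^ (-(99 / 100) : ℝ) := mul_le_mul (hU.bd z).2 (hfb z) (abs_nonneg _) (by norm_num)
      calc R / 2 * (U z * |f z|) ≤ R / 2 * (2 * R ^ (-(99 / 100) : ℝ)) := mul_le_mul_of_nonneg_left h3 (by positivity)
        _ = R ^ (1 : ℝ) * R ^ (-(99 / 100) : ℝ) := by rw [Real.rpow_one]; ring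
        _ = R ^ (1 / 100 : ℝ) := by
          rw [← Real.rpow_add hR0]
          norm_num
    have h3 : R ^ (-(1 / 101) : ℝ) ≤ R ^ (1 / 100 : ℝ) := Real.rpow_le_rpow_of_exponent_le hR1 (by norm_num)
    have h4 : ‖Hop U R φ z‖ ≤ ‖Hop U R φ z - ((R / 2 * (U z * f z) : ℝ) : ℂ) * φ z‖ + ‖((R / 2 * (U z * f z) : ℝ) : ℂ) * φ z‖ := by
      have h5 := norm_add_le (Hop U R φ z - ((R / 2 * (U z * f z) : ℝ) : ℂ) * φ z) (((R / 2 * (U z * f z) : ℝ) : ℂ) * φ z)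
      rwa [sub_add_cancel] at h5
    have h5 : R ^ (-(1 / 101) : ℝ) * ‖φ z‖ ≤ R ^ (1 / 100 : ℝ) * ‖φ z‖ := mul_le_mul_of_nonneg_right h3 (norm_nonneg _)
    linarith

end Pool.Agent.VQ
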