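import Pool.Agent.helper55.VQ.SpecD
import Pool.Agent.helper57.VQE.PFB

/-!
# Project VQ (MP_07c750_an), block 2d, row EDL: Lipschitz constants
-/

set_option autoImplicit false

open scoped MatrixGroups ContDiff Topology UpperHalfPlane ComplexConjugate ENNReal
open UpperHalfPlane MeasureTheory Filter Set

namespace Pool.Agent.VQ

open Pool.Agent.RS
open Pool.Agent.RPQ (CEig mean VV IsOp)

theorem EDL_U (hVCD : VCD_stmt) {Γ : Subgroup SL(2, ℝ)} {δ : ℝ} {B : ℕ → ℝ} {U : ℍ → ℝ} (hP : Pot Γ δ B U) :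
    0 ≤ δ ∧ (∀ z : ℍ, |U z - 1| ≤ δ) ∧ ∀ z w : ℍ, |U z - U w| ≤ 2 * δ * dist z w := by
  obtain ⟨h1, -, hI, -, -, h6, -⟩ := hVCD
  have hδ0 : 0 ≤ δ := (norm_nonneg _).trans (hP.near 1 0 (by simp) 0 (by norm_num))
  have h0 : cdi 0 = I := by rw [← hI, (h1 I).2]
  have hb : ∀ z : ℍ, |U z - 1| ≤ δ := by
    intro z
    obtain ⟨g, hg⟩ := MulAction.exists_smul_eq SL(2, ℝ) (I : ℍ) z
    have h2 := hP.near g 0 (by simp) 0 (by norm_num)
    rw [norm_iteratedFDeriv_zero, Real.norm_eq_abs] at h2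
    have h3 : Ug U g 0 = U z := by
      show U (g • cdi 0) = U z
      rw [h0, hg]
    rwa [h3] at h2
  refine ⟨hδ0, hb, fun z w => ?_⟩
  obtain ⟨g, hg⟩ := MulAction.exists_smul_eq SL(2, ℝ) (I : ℍ) z
  have hUv : Ug U g (cd (g⁻¹ • w)) = U w := by
    show U (g • cdi (cd (g⁻¹ • w))) = U w
    rw [(h1 _).2, smul_inv_smul]
  have hU0 : Ug U g 0 = U z := by
    show U (g • cdi 0) = U z
    rw [h0, hg]
  have hv : ‖cd (g⁻¹ • w)‖ ≤ dist z w := by
    calc ‖cd (g⁻¹ • w)‖ ≤ dist (g⁻¹ • w : ℍ) I := h6 _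
      _ = dist (g • g⁻¹ • w : ℍ) (g • I) := (dist_smul g _ _).symm
      _ = dist z w := by rw [smul_inv_smul, hg, dist_comm]
  rcases le_total ‖cd (g⁻¹ • w)‖ 1 with h | h
  · have h2 : ‖(Ug U g (cd (g⁻¹ • w)) - 1) - (Ug U g 0 - 1)‖ ≤ δ * ‖cd (g⁻¹ • w) - 0‖ := by
      refine Convex.norm_image_sub_le_of_norm_fderiv_le (𝕜 := ℝ) (f := fun x => Ug U g x - 1) (s := Metric.closedBall (0 : ℂ) 1) (x := 0)
        (y := cd (g⁻¹ • w)) (fun x hx => ?_) (fun x hx => ?_)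
        (convex_closedBall _ _) (Metric.mem_closedBall_self zero_le_one) (mem_closedBall_zero_iff.2 h)
      · rw [mem_closedBall_zero_iff] at hx
        exact (VQE.PFB_at U hP.smooth g hx).differentiableAt (by simp)
      · rw [mem_closedBall_zero_iff] at hx
        have h3 := hP.near g x hx 1 (by norm_num)
        rwa [norm_iteratedFDeriv_one] at h3
    rw [hUv, hU0, sub_zero, Real.norm_eq_abs] at h2
    have h3 : |U z - U w| = |U w - 1 - (U z - 1)| := by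
      rw [abs_sub_comm]
      congr 1
      ring
    rw [h3]
    have h4 : δ * ‖cd (g⁻¹ • w)‖ ≤ δ * dist z w := mul_le_mul_of_nonneg_left hv hδ0
    have h5 : 0 ≤ δ * dist z w := mul_nonneg hδ0 dist_nonneg
    linarith
  · have h2 : 1 ≤ dist z w := h.trans hv
    have h3 : |U z - U w| ≤ |U z - 1| + |U w - 1| := by
      have h4 : U z - U w = (U z - 1) - (U w - 1) := by ring
      rw [h4]
      exact abs_sub _ _
    have h5 := hb z
    have h6 := hb w
    have h7 : 2 * δ * 1 ≤ 2 * δ * dist z w := mul_le_mul_of_nonneg_left h2 (by linarith)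
    linarith

theorem EDL_proof (hVUB : VUB_stmt) (hVCD : VCD_stmt) : EDL_stmt := by
  intro Γ δ R B D f hR hD hδ hf
  obtain ⟨hPU, -⟩ := hVUB Γ δ B D.U hD.pot hδ
  obtain ⟨hδ0, hb, hL⟩ := EDL_U hVCD hD.pot
  have hR0 : 0 < R := by linarith
  have hκ : R ^ (1 / 100 : ℝ) / R = R ^ (-(99 / 100) : ℝ) := by
    rw [div_eq_mul_inv, ← Real.rpow_neg_one, ← Real.rpow_add hR0]
    norm_num
  have hκ0 : 0 < R ^ (-(99 / 100) : ℝ) := Real.rpow_pos_of_pos hR0 _
  have hfb : ∀ z, |f z| ≤ R ^ (-(99 / 100) : ℝ) := fun z => hκ ▸ hf.bd z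
  have hfl : ∀ z w, |f z - f w| ≤ R ^ (-(99 / 100) : ℝ) * dist z w := fun z w => hκ ▸ hf.lip z w
  have hL' : ∀ z w : ℍ, |D.U z - D.U w| ≤ 1 / 5 * dist z w := fun z w =>
    (hL z w).trans (mul_le_mul_of_nonneg_right (by linarith) dist_nonneg)
  have hUb : ∀ z, |D.U z| ≤ 11 / 10 := by
    intro z
    have h1 := abs_le.1 (hb z)
    rw [abs_le]
    constructor <;> linarith
  refine ⟨hPU.inv, fun z w => (hL' z w).trans ?_, ⟨hPU.inv.1.mul hf.inv.1, fun γ z => ?_⟩, fun z => ?_, fun z w => ?_⟩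
  · have := dist_nonneg (x := z) (y := w)
    linarith
  · show D.U (γ • z) * f (γ • z) = D.U z * f z
    rw [hPU.inv.2, hf.inv.2]
  · rw [abs_mul]
    exact mul_le_mul ((hUb z).trans (by norm_num)) (hfb z) (abs_nonneg _) (by norm_num)
  · have h1 : D.U z * f z - D.U w * f w = D.U z * (f z - f w) + f w * (D.U z - D.U w) := by ring
    rw [h1]
    refine (abs_add_le _ _).trans ?_
    rw [abs_mul, abs_mul]
    have h2 : |D.U z| * |f z - f w| ≤ 11 / 10 * (R ^ (-(99 / 100) : ℝ) * dist z w) := mul_le_mul (hUb z) (hfl z w) (abs_nonneg _) (by norm_num)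
    have h3 : |f w| * |D.U z - D.U w| ≤ R ^ (-(99 / 100) : ℝ) * (1 / 5 * dist z w) := mul_le_mul (hfb w) (hL' z w) (abs_nonneg _) hκ0.le
    have h4 : 0 ≤ R ^ (-(99 / 100) : ℝ) * dist z w := mul_nonneg hκ0.le dist_nonneg
    nlinarith

end Pool.Agent.VQ
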